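import Pool.Agent.Helper29.SR.Props

/-!
# MP_b55b7c_an: packet SR-InvExt
-/

open scoped ENNReal NNReal InnerProductSpace ComplexOrder
open Filter Topology

attribute [-instance] CStarMatrix.instAlgebra CStarMatrix.instModule CStarMatrix.instSMul
  CStarMatrix.instMulAction CStarMatrix.instDistribMulAction

noncomputable section
namespace RC
universe u

theorem h42_qbound {M : Type u} [CStarAlgebra M] [PartialOrder M] [StarOrderedRing M]
    (v z : M) (ε : ℝ) (hε : 0 < ε) (hz : ‖v - z‖ < Real.sqrt ε / 4) :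
    algebraMap ℝ M (ε / 4) ≤
      star z * z + (ε / 2) • (1 - cfc (fun t : ℝ => max 0 (min 1 (t / ε))) (sq v)) := by
  set A : M := cfc (fun t : ℝ => max 0 (min 1 (t / ε))) (sq v) with hA
  have hP : 0 ≤ sq v := star_mul_self_nonneg v
  have hPs : IsSelfAdjoint (sq v) := IsSelfAdjoint.of_nonneg hP
  -- `ε • A ≤ P`
  have h1 : ε • A ≤ sq v := by
    have e1 : ε • A = cfc (fun t : ℝ => ε * max 0 (min 1 (t / ε))) (sq v) := by
      rw [hA, ← cfc_smul ε (fun t : ℝ => max 0 (min 1 (t / ε))) (sq v)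
        (hf := by fun_prop)]
      rfl
    have e2 : sq v = cfc (fun t : ℝ => t) (sq v) := (cfc_id' ℝ (sq v) hPs).symm
    rw [e1]
    conv_rhs => rw [e2]
    have hc1 : Continuous (fun t : ℝ => ε * max 0 (min 1 (t / ε))) := by fun_prop
    have hc2 : Continuous (fun t : ℝ => t) := continuous_id
    refine cfc_mono (fun t ht => ?_) hc1.continuousOn hc2.continuousOn
    · have ht0 : 0 ≤ t := spectrum_nonneg_of_nonneg hP ht
      have h3 : max 0 (min 1 (t / ε)) ≤ t / ε :=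
        max_le (div_nonneg ht0 hε.le) (min_le_right _ _)
      calc ε * max 0 (min 1 (t / ε)) ≤ ε * (t / ε) := mul_le_mul_of_nonneg_left h3 hε.le
        _ = t := by field_simp
  -- `star d * d ≤ ε / 16`
  have hd : ‖v - z‖ ^ 2 ≤ ε / 16 := by
    have h0 : 0 ≤ ‖v - z‖ := norm_nonneg _
    have h2 : ‖v - z‖ ^ 2 ≤ (Real.sqrt ε / 4) ^ 2 := by
      apply pow_le_pow_left₀ h0 hz.le
    rw [div_pow, Real.sq_sqrt hε.le] at h2
    linarith
  have h2 : star (v - z) * (v - z) ≤ (ε / 16) • (1 : M) := by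
    refine (CStarAlgebra.star_mul_le_algebraMap_norm_sq (a := v - z)).trans ?_
    rw [Algebra.algebraMap_eq_smul_one]
    exact smul_le_smul_of_nonneg_right hd zero_le_one
  have h3 : (0 : M) ≤ star (z - (v - z)) * (z - (v - z)) := star_mul_self_nonneg _
  have h4 : star v * v + star (z - (v - z)) * (z - (v - z)) =
      (2 : ℝ) • (star z * z) + (2 : ℝ) • (star (v - z) * (v - z)) := by
    simp only [star_sub, sub_mul, mul_sub, two_smul]
    abel
  have h5 : sq v ≤ (2 : ℝ) • (star z * z) + (2 : ℝ) • (star (v - z) * (v - z)) := by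
    rw [← h4]
    exact le_add_of_nonneg_right h3
  have h6 : ε • A ≤ (2 : ℝ) • (star z * z) + (2 : ℝ) • ((ε / 16) • (1 : M)) :=
    h1.trans (h5.trans (add_le_add_right (smul_le_smul_of_nonneg_left h2 (by norm_num)) _))
  have h7 : (1 / 2 : ℝ) • (ε • A) ≤
      (1 / 2 : ℝ) • ((2 : ℝ) • (star z * z) + (2 : ℝ) • ((ε / 16) • (1 : M))) :=
    smul_le_smul_of_nonneg_left h6 (by norm_num)
  have h8 : (1 / 2 : ℝ) • ((2 : ℝ) • (star z * z) + (2 : ℝ) • ((ε / 16) • (1 : M))) =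
      star z * z + (ε / 16) • (1 : M) := by
    rw [smul_add, smul_smul, smul_smul]
    norm_num
  rw [h8] at h7
  have h9 : (ε / 2) • (1 - A) = (ε / 2) • (1 : M) - (1 / 2 : ℝ) • (ε • A) := by
    rw [smul_sub, smul_smul]
    congr 2
    ring
  rw [h9, Algebra.algebraMap_eq_smul_one]
  have h10 : (ε / 4) • (1 : M) ≤ (ε / 2) • (1 : M) - (ε / 16) • (1 : M) := by
    rw [← sub_smul]
    exact smul_le_smul_of_nonneg_right (by linarith) zero_le_one
  have h11 : star z * z + ((ε / 2) • (1 : M) - (1 / 2 : ℝ) • (ε • A)) =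
      ((ε / 2) • (1 : M) - (ε / 16) • (1 : M)) +
        ((star z * z + (ε / 16) • (1 : M)) - (1 / 2 : ℝ) • (ε • A)) := by
    abel
  rw [h11]
  exact h10.trans (le_add_of_nonneg_right (sub_nonneg.2 h7))

theorem h42_invExtP : InvExtP.{u} := by
  intro M _ _ _ hsr v ε hε
  have hse : 0 < Real.sqrt ε := Real.sqrt_pos.2 hε
  obtain ⟨z, hzu, hz⟩ := hsr v (Real.sqrt ε / 4) (by positivity)
  set A : M := cfc (fun t : ℝ => max 0 (min 1 (t / ε))) (sq v) with hA
  have hQ := h42_qbound v z ε hε hz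
  rw [← hA] at hQ
  set Q : M := star z * z + (ε / 2) • (1 - A) with hQd
  have hP : 0 ≤ sq v := star_mul_self_nonneg v
  have hPs : IsSelfAdjoint (sq v) := IsSelfAdjoint.of_nonneg hP
  have hA1 : A ≤ 1 := by
    apply cfc_le_one
    intro t _
    exact max_le zero_le_one (min_le_left _ _)
  have hzz : (0 : M) ≤ star z * z := star_mul_self_nonneg z
  have hzQ : star z * z ≤ Q := by
    rw [hQd]
    exact le_add_of_nonneg_right (smul_nonneg (by positivity) (sub_nonneg.2 hA1))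
  have hQ0 : 0 ≤ Q := hzz.trans hzQ
  -- the unit of the lower bound
  have hr : (ε / 4) * (ε / 4)⁻¹ = 1 := mul_inv_cancel₀ (by positivity)
  let a : Mˣ := ⟨algebraMap ℝ M (ε / 4), algebraMap ℝ M (ε / 4)⁻¹,
    by rw [← map_mul, hr, map_one], by rw [← map_mul, mul_comm, hr, map_one]⟩
  have ha0 : (0 : M) ≤ (a : M) := by
    change (0 : M) ≤ algebraMap ℝ M (ε / 4)
    rw [Algebra.algebraMap_eq_smul_one]
    exact smul_nonneg (by positivity) zero_le_one
  have haS : IsStrictlyPositive (a : M) := ⟨ha0, a.isUnit⟩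
  have hQu : IsUnit Q := CStarAlgebra.isUnit_of_le (a : M) hQ haS
  obtain ⟨q, hq⟩ := hQu
  have hqinv : ((q⁻¹ : Mˣ) : M) ≤ (a⁻¹ : Mˣ) := by
    apply CStarAlgebra.inv_le_inv ha0
    rw [hq]
    exact hQ
  have hq0 : (0 : M) ≤ ((q⁻¹ : Mˣ) : M) := CFC.inv_nonneg_of_nonneg q (by rw [hq]; exact hQ0)
  have hqs : star ((q⁻¹ : Mˣ) : M) = ((q⁻¹ : Mˣ) : M) := (IsSelfAdjoint.of_nonneg hq0).star_eq
  have hqn : ‖((q⁻¹ : Mˣ) : M)‖ ≤ 4 / ε := by
    rw [CStarAlgebra.norm_le_iff_le_algebraMap _ (by positivity) hq0]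
    have : (4 / ε : ℝ) = (ε / 4)⁻¹ := by rw [inv_div]
    rw [this]
    exact hqinv
  -- the estimate of `Q⁻¹ z*`
  have hn : ‖((q⁻¹ : Mˣ) : M) * star z‖ ^ 2 ≤ 4 / ε := by
    have e1 : ‖((q⁻¹ : Mˣ) : M) * star z‖ ^ 2 =
        ‖((q⁻¹ : Mˣ) : M) * (star z * z) * ((q⁻¹ : Mˣ) : M)‖ := by
      rw [pow_two, ← CStarRing.norm_self_mul_star, star_mul, star_star, hqs]
      congr 1
      simp only [mul_assoc]
    rw [e1]
    have e2 : ((q⁻¹ : Mˣ) : M) * (star z * z) * ((q⁻¹ : Mˣ) : M) ≤ ((q⁻¹ : Mˣ) : M) := by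
      have e3 := star_left_conjugate_le_conjugate hzQ ((q⁻¹ : Mˣ) : M)
      rw [hqs, ← hq, Units.inv_mul, one_mul] at e3
      exact e3
    have e4 : (0 : M) ≤ ((q⁻¹ : Mˣ) : M) * (star z * z) * ((q⁻¹ : Mˣ) : M) := by
      have e5 := star_left_conjugate_nonneg hzz ((q⁻¹ : Mˣ) : M)
      rwa [hqs] at e5
    exact (CStarAlgebra.norm_le_norm_of_nonneg_of_le e4 e2).trans hqn
  have hn' : ‖((q⁻¹ : Mˣ) : M) * star z‖ ≤ 2 / Real.sqrt ε := by
    apply le_of_sq_le_sq
    · rw [div_pow, Real.sq_sqrt hε.le]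
      norm_num
      exact hn
    · positivity
  set c : M := (v - z) * (((q⁻¹ : Mˣ) : M) * star z) with hc
  have hcn : ‖c‖ < 1 := by
    calc ‖c‖ ≤ ‖v - z‖ * ‖((q⁻¹ : Mˣ) : M) * star z‖ := norm_mul_le _ _
      _ ≤ (Real.sqrt ε / 4) * (2 / Real.sqrt ε) := by
          apply mul_le_mul hz.le hn' (norm_nonneg _) (by positivity)
      _ = 1 / 2 := by field_simp; norm_num
      _ < 1 := by norm_num
  have hcu : IsUnit (1 + c) := by
    have h := isUnit_one_sub_of_norm_lt_one (x := -c) (by rw [norm_neg]; exact hcn)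
    rwa [sub_neg_eq_add] at h
  refine ⟨(1 + c) * z, hcu.mul hzu, ?_⟩
  intro F hF hF0
  have hAF : (1 - A) * cfc F (sq v) = 0 := by
    have e1 : (1 : M) - A = cfc (fun t : ℝ => 1 - max 0 (min 1 (t / ε))) (sq v) := by
      have hc3 : Continuous (fun t : ℝ => max 0 (min 1 (t / ε))) := by fun_prop
      rw [cfc_sub (fun _ : ℝ => (1 : ℝ)) (fun t : ℝ => max 0 (min 1 (t / ε))) (sq v)
        continuousOn_const hc3.continuousOn, cfc_const_one ℝ (sq v) hPs]
    rw [e1, ← cfc_mul _ _ _ (by fun_prop) (by fun_prop)]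
    have e2 : (fun t : ℝ => (1 - max 0 (min 1 (t / ε))) * F t) = fun _ => 0 := by
      funext t
      rcases le_or_gt t ε with h | h
      · rw [hF0 t h, mul_zero]
      · have : 1 ≤ t / ε := by rw [le_div_iff₀ hε]; linarith
        rw [min_eq_left this]
        simp
    rw [e2, cfc_const_zero]
  have hQF : Q * cfc F (sq v) = star z * z * cfc F (sq v) := by
    rw [hQd, add_mul, smul_mul_assoc, hAF, smul_zero, add_zero]
  have hqF : ((q⁻¹ : Mˣ) : M) * (star z * z * cfc F (sq v)) = cfc F (sq v) := by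
    rw [← hQF, ← hq, ← mul_assoc, Units.inv_mul, one_mul]
  calc (1 + c) * z * cfc F (sq v) = z * cfc F (sq v) +
        (v - z) * (((q⁻¹ : Mˣ) : M) * (star z * z * cfc F (sq v))) := by
          rw [hc]
          simp only [add_mul, one_mul, mul_assoc]
    _ = v * cfc F (sq v) := by
          rw [hqF, sub_mul]
          abel

end RC
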