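import Pool.Agent.Helper47.SR.Goals

/-!
# MP_0130f7_co, packet SR-M2: the middle-out condition between the levels 2 and 3
-/

set_option autoImplicit false

namespace Pool.Agent.Helper42.SR

open Finset Pool.Agent.Helper47.SR

/-- the numerical part -/
theorem m2_num (n g d E y u v WS WY US Z : ℝ) (hn : 1200 ≤ n) (hd : 0 ≤ d) (hg0 : 0 ≤ g)
    (hg : g ≤ n) (hy0 : 0 ≤ y) (hE0 : 0 ≤ E)
    (ha : (n - 1) * (n - 2) * WS ≤ 3 * (n - 1 + d) * US)
    (hb : 3 * (n - 1 + d) * v + u ≤ (n - 1) * (n - 2) * WY + v)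
    (hTB : 3 * E ≤ 2 * y) (hE3 : 3 * E + n * (1 + d) ≤ n * g)
    (hsep : WY + g ≤ WS) (hhalf : 4 * WY ≤ n * (n - 1 + d)) (hyW : y ≤ WY) (hvu : v ≤ u)
    (hZ : n - 4 ≤ 5 * Z)
    (hKK : y ≤ 275 / 1000 * n ^ 2 → Z * y ≤ 3 * (u - v)) :
    v + E + WS ≤ US + WY := by
  obtain ⟨D, hD⟩ : ∃ D, D = n - 1 + d := ⟨_, rfl⟩
  rw [← hD] at ha hb hhalf
  have hDpos : 0 < D := by linarith
  have hdg : 1 + d ≤ g := by
    have h : n * (1 + d) ≤ n * g := by linarith
    exact le_of_mul_le_mul_left h (by linarith)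
  have hD2 : D ≤ 2 * n := by linarith
  have hN : 0 ≤ (n - 1) * (n - 2) - 3 * D := by nlinarith
  -- key reduction
  have key : 3 * D * E + v - u ≤ ((n - 1) * (n - 2) - 3 * D) * g := by
    by_cases hc : 3 * D * E ≤ ((n - 1) * (n - 2) - 3 * D) * g
    · linarith
    · push Not at hc
      have h1 : 3 * D * E ≤ D * (n * (g - 1 - d)) := by
        have : 3 * E ≤ n * (g - 1 - d) := by linarith
        nlinarith
      have hid : D * (n * (g - 1 - d)) - ((n - 1) * (n - 2) - 3 * D) * g
          = (5 * (n - 1) + (n + 3) * d) * g - n * ((n - 1) + n * d + d ^ 2) := by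
        rw [hD]; ring
      have hgd : (5 * (n - 1) + (n + 3) * d) * g ≤ (5 * (n - 1)) * g + (n + 3) * d * n := by
        have : (n + 3) * d * g ≤ (n + 3) * d * n := by
          apply mul_le_mul_of_nonneg_left hg; positivity
        linarith
      have hdn : 10 * d < n := by
        by_contra hcon
        push Not at hcon
        have h2 : (5 * (n - 1)) * g ≤ 5 * (n - 1) * n := by
          apply mul_le_mul_of_nonneg_left hg; linarith
        have h3 : 0 < n * (4 * (n - 1) + 3 * d - d ^ 2) := by nlinarith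
        have h4 : 0 < 4 * (n - 1) + 3 * d - d ^ 2 := by
          by_contra h5
          push Not at h5
          nlinarith
        nlinarith
      have hB : 3 * D * E - ((n - 1) * (n - 2) - 3 * D) * g ≤ 5 * (g * n) := by
        have h3 : (3 * d - d ^ 2 - (n - 1)) * n ≤ 0 := by
          have : 3 * d - d ^ 2 - (n - 1) ≤ 0 := by nlinarith [sq_nonneg (d - 3 / 2)]
          nlinarith
        nlinarith
      have hD11 : D ≤ 11 / 10 * n := by linarith
      have hysm : y ≤ 275 / 1000 * n ^ 2 := by nlinarith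
      have hK := hKK hysm
      have hylow : (n - 63 / 10) * g ≤ 22 / 10 * y := by
        have h2 : ((n - 1) * (n - 2) - 3 * D) * g ≤ 2 * D * y := by nlinarith
        have h3 : 2 * D * y ≤ 22 / 10 * n * y := by nlinarith
        have h4 : n * ((n - 63 / 10) * g) ≤ ((n - 1) * (n - 2) - 3 * D) * g := by
          have : n * (n - 63 / 10) ≤ (n - 1) * (n - 2) - 3 * D := by nlinarith
          nlinarith
        have h5 : n * ((n - 63 / 10) * g) ≤ n * (22 / 10 * y) := by nlinarith
        exact le_of_mul_le_mul_left h5 (by linarith)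
      have hC : 5 * (g * n) ≤ u - v := by
        have h2 : (n - 4) / 5 * y ≤ Z * y := mul_le_mul_of_nonneg_right (by linarith) hy0
        have h3 : (n - 4) * ((n - 63 / 10) * g) ≤ (n - 4) * (22 / 10 * y) :=
          mul_le_mul_of_nonneg_left hylow (by linarith)
        have h4 : 165 * n * g ≤ (n - 4) * ((n - 63 / 10) * g) := by
          have : 165 * n ≤ (n - 4) * (n - 63 / 10) := by nlinarith
          nlinarith
        nlinarith
      linarith
  have hmul : ((n - 1) * (n - 2) - 3 * D) * g ≤ ((n - 1) * (n - 2) - 3 * D) * (WS - WY) :=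
    mul_le_mul_of_nonneg_left (by linarith) hN
  have : 3 * D * (v + E + WS) ≤ 3 * D * (US + WY) := by nlinarith
  exact le_of_mul_le_mul_left this (by linarith)

theorem W_eq {n : ℕ} (G : Grp n) (F : Finset (Finset (Fin n))) : W G F = #F + Ew G F := by
  unfold W Ew
  rw [sum_add_distrib, sum_const, smul_eq_mul, mul_one]

theorem dn_subset_up {n m : ℕ} (F : Finset (Finset (Fin n))) : dn m F ⊆ up m F := by
  intro B hB
  unfold dn at hB
  unfold up
  rw [mem_filter] at hB ⊢
  refine ⟨hB.1, ?_⟩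
  have hc : #B = m + 1 := (mem_powersetCard.1 hB.1).2
  obtain ⟨a, ha⟩ : B.Nonempty := by
    rw [← card_pos]; omega
  exact ⟨a, ha, hB.2 a ha⟩

theorem goal_M2 (hM2A : Goal_M2A) (hE23 : Goal_E23) (hTB : Goal_TB) (hKKA : Goal_KKA)
    (hKKB : Goal_KKB) (hORB : Goal_ORB) : Goal_M2 := by
  refine ⟨1200, fun n hn G hG => ?_⟩
  intro S Y hS hY hSi hYi hhalf hlt
  obtain ⟨hE2, hE3, hgn⟩ := hE23 n G hG (by omega)
  have ha := (hM2A n G hG (by omega) S hS).1
  have hb := (hM2A n G hG (by omega) Y hY).2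
  have hTBY := hTB n G hG 2 le_rfl Y hY
  have hEdn : Ew G (dn 2 Y) ≤ Ew G (lev n 3) := by
    unfold Ew
    exact sum_le_sum_of_subset (filter_subset _ _)
  have hdnup : #(dn 2 Y) ≤ #(up 2 Y) := card_le_card (dn_subset_up Y)
  have hWS := hORB n G S hSi
  have hWY := hORB n G Y hYi
  have hsep : W G Y + Nat.card G ≤ W G S := by
    rw [hWS, hWY] at hlt ⊢
    have h1 : #(Y.image (orb G)) < #(S.image (orb G)) := by
      by_contra h
      push Not at h
      exact absurd (Nat.mul_le_mul_left (Nat.card G) h) (by omega)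
    calc Nat.card G * #(Y.image (orb G)) + Nat.card G
        = Nat.card G * (#(Y.image (orb G)) + 1) := by ring
      _ ≤ _ := Nat.mul_le_mul_left _ h1
  have hlev : #(lev n 2) = n.choose 2 := by
    rw [card_powersetCard, card_univ, Fintype.card_fin]
  have hch : 2 * n.choose 2 = n * (n - 1) := by
    rw [Nat.choose_two_right, Nat.mul_div_cancel']
    exact (Nat.even_mul_pred_self n).two_dvd
  have hhalf' : 4 * W G Y ≤ n * (n - 1 + nInv G) := by
    have h1 : W G (lev n 2) = n.choose 2 + Ew G (lev n 2) := by rw [W_eq, hlev]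
    rw [h1] at hhalf
    have : n * (n - 1 + nInv G) = n * (n - 1) + n * nInv G := by ring
    omega
  have hYle : #Y ≤ n.choose 2 := by rw [← hlev]; exact card_le_card hY
  have hKB := hKKB n 2 n (by omega) (by omega) Y hY (by
    rw [Nat.choose_symm (by omega)]; exact hYle)
  have e1 : n - (n - 2) + 1 = 3 := by omega
  rw [e1] at hKB
  have hWYeq := W_eq G Y
  have hWup := W_eq G (up 2 S)
  have hWdn := W_eq G (dn 2 Y)
  -- casts
  have c1 : ((n - 1 : ℕ) : ℝ) = (n : ℝ) - 1 := by
    rw [Nat.cast_sub (by omega)]; simp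
  have c2 : ((n - 2 : ℕ) : ℝ) = (n : ℝ) - 2 := by
    rw [Nat.cast_sub (by omega)]; simp
  have hZn : n - n / 5 ≤ n := Nat.sub_le _ _
  have hZ1 : n - 4 ≤ 5 * (n / 5) := by omega
  have main := m2_num (n : ℝ) (Nat.card G : ℝ) (nInv G : ℝ) (Ew G (dn 2 Y) : ℝ) (#Y : ℝ)
    (#(up 2 Y) : ℝ) (#(dn 2 Y) : ℝ) (W G S : ℝ) (W G Y : ℝ) (#(up 2 S) : ℝ) ((n / 5 : ℕ) : ℝ)
    (by exact_mod_cast hn) (by positivity) (by positivity) (by exact_mod_cast hgn) (by positivity)
    (by positivity)
    (by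
      rw [← c1, ← c2]
      exact_mod_cast ha)
    (by
      rw [← c1, ← c2]
      exact_mod_cast hb)
    (by exact_mod_cast hTBY)
    (by
      have : 3 * Ew G (dn 2 Y) + n * (1 + nInv G) ≤ n * Nat.card G := by omega
      exact_mod_cast this)
    (by exact_mod_cast hsep)
    (by
      rw [← c1]
      exact_mod_cast hhalf')
    (by
      have : #Y ≤ W G Y := by omega
      exact_mod_cast this)
    (by exact_mod_cast hdnup)
    (by
      have : n ≤ 5 * (n / 5) + 4 := by omega
      have h2 : (n : ℝ) ≤ 5 * ((n / 5 : ℕ) : ℝ) + 4 := by exact_mod_cast this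
      linarith)
    (by
      intro hsm
      have hz : #Y ≤ (n - n / 5).choose 2 := by
        have h5 : (4 * n) ≤ 5 * (n - n / 5) := by omega
        have hz2 : 2 * (n - n / 5).choose 2 = (n - n / 5) * (n - n / 5 - 1) := by
          rw [Nat.choose_two_right, Nat.mul_div_cancel']
          exact (Nat.even_mul_pred_self _).two_dvd
        obtain ⟨z, hz⟩ : ∃ z, z = n - n / 5 := ⟨_, rfl⟩
        rw [← hz] at h5 hz2 ⊢
        have h6 : (4 * n : ℝ) ≤ 5 * z := by exact_mod_cast h5
        have h7 : (z : ℝ) * ((z : ℝ) - 1) = 2 * (z.choose 2 : ℝ) := by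
          have h8 : ((z - 1 : ℕ) : ℝ) = (z : ℝ) - 1 := by
            rw [Nat.cast_sub (by omega)]; simp
          rw [← h8]
          exact_mod_cast hz2.symm
        have hn' : (1200 : ℝ) ≤ n := by exact_mod_cast hn
        have h9 : (#Y : ℝ) ≤ (z.choose 2 : ℝ) := by nlinarith
        exact_mod_cast h9
      have hKA := hKKA n 2 (n - n / 5) (by norm_num) (by omega) Y hY hz
      have h1 : ((n / 5 : ℕ) : ℝ) = ((n - 2 : ℕ) : ℝ) - ((n - n / 5 - 2 : ℕ) : ℝ) := by
        have : n - 2 = n / 5 + (n - n / 5 - 2) := by omega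
        rw [this]; push_cast; ring
      rw [h1]
      have h2 : ((n - 2 : ℕ) : ℝ) * (#Y : ℝ) ≤ 3 * (#(up 2 Y) : ℝ) := by exact_mod_cast hKB
      have h3 : 3 * (#(dn 2 Y) : ℝ) ≤ ((n - n / 5 - 2 : ℕ) : ℝ) * (#Y : ℝ) := by
        exact_mod_cast hKA
      linarith)
  have main' : #(dn 2 Y) + Ew G (dn 2 Y) + W G S ≤ #(up 2 S) + W G Y := by exact_mod_cast main
  omega

end Pool.Agent.Helper42.SR
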